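import Pool.Agent.Results.MP_9ae2f3_gt.GluedKnotExteriors

set_option autoImplicit false

/-!
# Closed manifolds glued along a torus from two trees of pieces

The class `Tree` of the starting result `GluedKnotExteriors` (problem MP_9ae2f3_gt) consists of the fundamental groups
`G` of manifolds with one boundary torus, with a marked pair `x`, `e` of boundary elements: it contains the exteriors
of the knots with Nie's property (D) (for example of all closures of positive 1-bridge braids, in particular of torus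
knots and Berge-Gabai knots, and of L-space twisted torus knots), with `x = μ` and `e = μ ^ (2g-1) * l`, and if `K` is
the exterior of the Borromean rings, the product of the circle and a sphere with `k + 3` holes, or the double branched
cover `Y` of an alternating diagram with an encircled triple of strands, then it contains the manifolds obtained
by gluing members of the class or solid tori to all boundary tori of `K` but one, such that the cone of the slopes
`x ^ p * e ^ q`, `p, q ≥ 0` of the member and the corresponding cone of `K` cover all slopes, with their interiors,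
respectively such that the slope of the solid torus is in the cone of `K`. The cones consist of L-space filling
slopes, and the closed manifolds considered here are L-spaces by the gluing theorem of Hanselman, Rasmussen and
Watson.

Here we treat all closed manifolds which arise from these trees: two arbitrary members of the class glued along their
boundary tori, such that the interiors of their cones cover all slopes (both sides may be trees of
Borromean, Seifert and alternating pieces and knot exteriors; the starting result has a knot exterior on one side),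
and the fillings of a member of the class by a solid torus with a slope in the cone. More generally we
prove a gluing theorem for arbitrary groups with a marked pair which satisfy the two conditions of `Caps`.
-/

universe u

namespace Pool.Agent.Results.MP_3d425c_gt.TreesOfPieces

open Pool.Agent.R649.BT
open Pool.Agent.Results.MP_9ae2f3_gt.GluedKnotExteriors

/-- The conditions on a group `G` with a pair of commuting elements `x`, `e`: in an action on a complete linear order,
the common fixed points of `x` and `e` are fixed by `G`; and the action is trivial if `x` and `e` never move a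
point in the same direction (and the fixed points of `x` are fixed points of `e`). -/
structure Caps (G : Type) [Group G] (x e : G) : Prop where
  comm : Commute x e
  fix : ∀ (X : Type u) [CompleteLinearOrder X] (ρ : G →* (X ≃o X)) (p : X), ρ x p = p → ρ e p = p →
    ∀ g, ρ g p = p
  closed : ∀ (X : Type u) [CompleteLinearOrder X] (ρ : G →* (X ≃o X)),
    (∀ v, v < ρ x v → ρ e v ≤ v) → (∀ v, ρ x v < v → v ≤ ρ e v) → (∀ v, ρ x v = v → ρ e v = v) →
      ∀ g p, ρ g p = p

/-- The slope of `x ^ p * e ^ q` is in the interior of the cone of `x` and `e`. -/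
def InCone (p q : ℤ) : Prop := (0 < p ∧ 0 < q) ∨ (p < 0 ∧ q < 0)

/-- If `x₁ = x₂ ^ a * e₂ ^ b` and `e₁ = x₂ ^ c * e₂ ^ d`: every slope `x₁ ^ p * e₁ ^ q` is in the interior of one of
the two cones. -/
def Covers (a b c d : ℤ) : Prop :=
  ∀ p q : ℤ, (p, q) ≠ (0, 0) → InCone p q ∨ InCone (p * a + q * c) (p * b + q * d)

section proof

theorem Covers.signs {a b c d : ℤ} (h : Covers a b c d) :
    (0 < a ∧ 0 < b ∧ c < 0 ∧ d < 0) ∨ (a < 0 ∧ b < 0 ∧ 0 < c ∧ 0 < d) := by
  have hc : Covering 0 0 a b c d := by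
    intro p q hpq
    have e : ∀ p q : ℤ, InCone p q → Interior 0 p q := by
      rintro p q (⟨h1, h2⟩ | ⟨h1, h2⟩)
      · left; exact ⟨h2, by rw [zero_mul]; exact h1⟩
      · right; exact ⟨h2, by rw [zero_mul]; exact h1⟩
    exact (h p q hpq).imp (e _ _) (e _ _)
  simpa using hc.signs

theorem Caps.piece {G : Type} [Group G] {x e : G} (h : Caps.{u} G x e) : Piece.{u} G x (x⁻¹ * e) := by
  have key : ∀ (X : Type u) [CompleteLinearOrder X] (ρ : G →* (X ≃o X)) (v : X),
      ρ x (ρ (x⁻¹ * e) v) = ρ e v := by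
    intro X _ ρ v
    rw [← RelIso.mul_apply, ← map_mul, mul_inv_cancel_left]
  refine ⟨(Commute.refl x).inv_right.mul_right h.comm, fun X _ ρ p h1 h2 => ?_, fun X _ ρ hd => ?_⟩
  · refine h.fix X ρ p h1 ?_
    rw [← key X ρ p, h2, h1]
  · have hc : Cap (ρ x) (ρ e) := by
      have h1 := Cap.of_dom hd
      rwa [← map_mul, mul_inv_cancel_left] at h1
    exact h.closed X ρ hc.up hc.down hc.fix

theorem caps_of_tree {G : Type} [Group G] {x e : G} (h : Tree G x e) : Caps.{u} G x e := by
  obtain ⟨h1, h2⟩ := h.piece'.{u}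
  refine ⟨h1, fun X _ ρ p hx he => ?_, fun X _ ρ a b c => ?_⟩
  · refine h2.fix X ρ p hx ?_
    rw [map_mul, map_inv]
    show (ρ x)⁻¹ (ρ e p) = p
    rw [he]
    exact symm_fix hx
  · refine h2.closed X ρ ?_
    have hc : Cap (ρ x) (ρ e) := by
      refine ⟨fun v => ?_, a, b, c⟩
      rw [← RelIso.mul_apply, ← RelIso.mul_apply, ← map_mul, ← map_mul, h1.eq]
    have h3 := hc.dom
    rwa [← map_inv, ← map_mul] at h3

variable {G₁ G₂ : Type} {G : Type u} [Group G₁] [Group G₂] [Group G]

/-- The gluing theorem, for actions. -/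
theorem act_glue {x₁ e₁ : G₁} {x₂ e₂ : G₂} (h₁ : Caps.{u} G₁ x₁ e₁) (h₂ : Caps.{u} G₂ x₂ e₂) {j₁ : G₁ →* G}
    {j₂ : G₂ →* G} (hgen : j₁.range ⊔ j₂.range = ⊤) {a b c d : ℤ} (hcov : Covers a b c d)
    (g1 : j₁ x₁ = j₂ (x₂ ^ a * e₂ ^ b)) (g2 : j₁ e₁ = j₂ (x₂ ^ c * e₂ ^ d))
    {X : Type u} [CompleteLinearOrder X] (ρ : G →* (X ≃o X)) (g : G) (p : X) : ρ g p = p := by
  have hT : TameE.{u} G₂ x₂ e₂ := h₂.piece.tameE h₂.comm
  have hinv : ∀ A B : ℕ, (x₂ ^ A * e₂ ^ B)⁻¹ = x₂ ^ (-(A : ℤ)) * e₂ ^ (-(B : ℤ)) := by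
    intro A B
    rw [(h₂.comm.pow_pow A B).eq, mul_inv_rev, zpow_neg, zpow_neg, zpow_natCast, zpow_natCast]
  have key : SCap (ρ (j₁ x₁)) (ρ (j₁ e₁)) ∧ ∀ p, ρ (j₁ x₁) p = p → ∀ g, ρ (j₂ g) p = p := by
    rcases hcov.signs with ⟨hA, hB, hC, hD⟩ | ⟨hA, hB, hC, hD⟩
    · obtain ⟨A, eA⟩ := Int.eq_ofNat_of_zero_le hA.le
      obtain ⟨B, eB⟩ := Int.eq_ofNat_of_zero_le hB.le
      obtain ⟨C, eC⟩ := Int.eq_ofNat_of_zero_le (neg_nonneg.mpr hC.le)
      obtain ⟨D, eD⟩ := Int.eq_ofNat_of_zero_le (neg_nonneg.mpr hD.le)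
      have eC' := neg_eq_iff_eq_neg.mp eC
      have eD' := neg_eq_iff_eq_neg.mp eD
      have u1 : j₁ x₁ = j₂ (x₂ ^ A * e₂ ^ B) := by
        rw [g1, eA, eB, zpow_natCast, zpow_natCast]
      have u2 : j₁ e₁ = j₂ (x₂ ^ C * e₂ ^ D)⁻¹ := by
        rw [g2, eC', eD', hinv]
      rw [u1, u2]
      exact ⟨hT.scap X (ρ.comp j₂) A B C D (by omega) (by omega) (by omega) (by omega),
        hT.fix X (ρ.comp j₂) A B (by omega) (by omega)⟩
    · obtain ⟨A, eA⟩ := Int.eq_ofNat_of_zero_le (neg_nonneg.mpr hA.le)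
      obtain ⟨B, eB⟩ := Int.eq_ofNat_of_zero_le (neg_nonneg.mpr hB.le)
      obtain ⟨C, eC⟩ := Int.eq_ofNat_of_zero_le hC.le
      obtain ⟨D, eD⟩ := Int.eq_ofNat_of_zero_le hD.le
      have eA' := neg_eq_iff_eq_neg.mp eA
      have eB' := neg_eq_iff_eq_neg.mp eB
      have u1 : j₁ x₁ = j₂ (x₂ ^ A * e₂ ^ B)⁻¹ := by
        rw [g1, eA', eB', hinv]
      have u2 : j₁ e₁ = j₂ (x₂ ^ C * e₂ ^ D) := by
        rw [g2, eC, eD, zpow_natCast, zpow_natCast]
      rw [u1, u2]
      refine ⟨?_, fun p hp => ?_⟩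
      · have h5 := scap_inv
          (hT.scap X (ρ.comp j₂) A B C D (by omega) (by omega) (by omega) (by omega))
        rw [← map_inv, ← map_inv, inv_inv] at h5
        exact h5
      · refine hT.fix X (ρ.comp j₂) A B (by omega) (by omega) p ?_
        rw [map_inv, map_inv] at hp
        have h6 := congrArg (ρ (j₂ (x₂ ^ A * e₂ ^ B))) hp
        have h7 : ρ (j₂ (x₂ ^ A * e₂ ^ B)) ((ρ (j₂ (x₂ ^ A * e₂ ^ B)))⁻¹ p) = p :=
          (ρ (j₂ (x₂ ^ A * e₂ ^ B))).apply_symm_apply p
        rw [h7] at h6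
        exact h6.symm
  have h5 := key.1.cap
  have t1 : ∀ g p, ρ (j₁ g) p = p := h₁.closed X (ρ.comp j₁) h5.up h5.down h5.fix
  have t2 : ∀ g p, ρ (j₂ g) p = p := fun g p => key.2 p (t1 x₁ p) g
  have hle : (⊤ : Subgroup G) ≤ (MulAction.stabilizer (X ≃o X) p).comap ρ := by
    rw [← hgen, sup_le_iff]
    constructor
    · rintro _ ⟨g, rfl⟩; exact t1 g p
    · rintro _ ⟨g, rfl⟩; exact t2 g p
  exact hle (Subgroup.mem_top g)

/-- Filling by a solid torus, for actions. -/
theorem act_solid {x₁ e₁ : G₁} (h₁ : Caps.{u} G₁ x₁ e₁) {j₁ : G₁ →* G} (hgen : j₁.range = ⊤) {p q : ℕ}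
    (hq : 1 ≤ q) (hr : j₁ x₁ ^ p * j₁ e₁ ^ q = 1) {X : Type u} [CompleteLinearOrder X] (ρ : G →* (X ≃o X)) (g : G)
    (v : X) : ρ g v = v := by
  have hc : Commute (ρ (j₁ x₁)) (ρ (j₁ e₁)) := (h₁.comm.map j₁).map ρ
  have hr' : ρ (j₁ x₁) ^ p * ρ (j₁ e₁) ^ q = 1 := by
    have h := congrArg ρ hr
    rwa [map_mul, map_pow, map_pow, map_one] at h
  have h5 := (cap_solid hc hq hr').1
  have t1 : ∀ g p, ρ (j₁ g) p = p := h₁.closed X (ρ.comp j₁) h5.up h5.down h5.fix
  have hle : (⊤ : Subgroup G) ≤ (MulAction.stabilizer (X ≃o X) v).comap ρ := by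
    rw [← hgen]
    rintro _ ⟨g, rfl⟩; exact t1 g v
  exact hle (Subgroup.mem_top g)

end proof

/-- (1) Let the group `G` be generated by the images of two groups `G₁`, `G₂` of the class `Tree` such that
`x₁ = x₂ ^ a * e₂ ^ b` and `e₁ = x₂ ^ c * e₂ ^ d` in `G`, where every slope is in the interior of one of the two cones;
for example the fundamental group of the closed manifold glued from the manifolds of `G₁`, `G₂` by this map. Then
every homomorphism from `G` to a left-orderable group is trivial, and `G` is not left-orderable. (2) The same if `G` is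
generated by the image of one group of the class and `x ^ p * e ^ q = 1` in `G`, `p ≥ 0`, `q ≥ 1` (filling by a solid
torus with a slope in the cone). (3) The gluing theorem (1) holds for all groups with a marked pair which satisfy the
conditions `Caps`, and (4) all members of the class `Tree` satisfy them. -/
theorem result :
    (∀ (G₁ G₂ : Type) (G : Type u) [Group G₁] [Group G₂] [Group G] (j₁ : G₁ →* G) (j₂ : G₂ →* G)
      (x₁ e₁ : G₁) (x₂ e₂ : G₂) (a b c d : ℤ), Tree G₁ x₁ e₁ → Tree G₂ x₂ e₂ → j₁.range ⊔ j₂.range = ⊤ →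
        Covers a b c d → j₁ x₁ = j₂ (x₂ ^ a * e₂ ^ b) → j₁ e₁ = j₂ (x₂ ^ c * e₂ ^ d) → NoOrders G) ∧
    (∀ (G₁ : Type) (G : Type u) [Group G₁] [Group G] (j₁ : G₁ →* G) (x₁ e₁ : G₁) (p q : ℕ), Tree G₁ x₁ e₁ →
      j₁.range = ⊤ → 1 ≤ q → j₁ x₁ ^ p * j₁ e₁ ^ q = 1 → NoOrders G) ∧
    (∀ (G₁ G₂ : Type) (G : Type u) [Group G₁] [Group G₂] [Group G] (j₁ : G₁ →* G) (j₂ : G₂ →* G)
      (x₁ e₁ : G₁) (x₂ e₂ : G₂) (a b c d : ℤ), Caps.{u} G₁ x₁ e₁ → Caps.{u} G₂ x₂ e₂ → j₁.range ⊔ j₂.range = ⊤ →
        Covers a b c d → j₁ x₁ = j₂ (x₂ ^ a * e₂ ^ b) → j₁ e₁ = j₂ (x₂ ^ c * e₂ ^ d) → NoOrders G) ∧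
    ∀ (G : Type) [Group G] (x e : G), Tree G x e → Caps.{u} G x e :=
  ⟨fun _ _ _ _ _ _ _ _ _ _ _ _ _ _ _ _ h₁ h₂ hgen hcov g1 g2 =>
      noOrders fun _ _ ρ g p => act_glue (caps_of_tree h₁) (caps_of_tree h₂) hgen hcov g1 g2 ρ g p,
    fun _ _ _ _ _ _ _ _ _ h₁ hgen hq hr =>
      noOrders fun _ _ ρ g p => act_solid (caps_of_tree h₁) hgen hq hr ρ g p,
    fun _ _ _ _ _ _ _ _ _ _ _ _ _ _ _ _ h₁ h₂ hgen hcov g1 g2 =>
      noOrders fun _ _ ρ g p => act_glue h₁ h₂ hgen hcov g1 g2 ρ g p,
    fun _ _ _ _ h => caps_of_tree h⟩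

end Pool.Agent.Results.MP_3d425c_gt.TreesOfPieces
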